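import Mathlib
import Pool.Agent.Lib.lead.PcpMain

set_option autoImplicit false

namespace Pool.Agent.Results.MP_c472bb_lc.Undecidable

/-- The image of the word `w` over the letters `0, ..., H.length - 1` under the morphism
sending the letter `i` to the `i`-th word of `H`. -/
def image (H : List (List ℕ)) (w : List ℕ) : List ℕ := w.flatMap fun i => H.getD i []

/-- Two words are comparable if one is an initial segment of the other. -/
def Comparable (u v : List ℕ) : Prop := u <+: v ∨ v <+: u

/-- Unique equality continuation instances. -/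
def UniqueEqCont (H G : List (List ℕ)) : Prop :=
  ∀ u : List ℕ, (∀ i ∈ u, i < H.length) → ∀ a b : ℕ, a < H.length → b < H.length → a ≠ b →
    Comparable (image H (u ++ [a])) (image G (u ++ [a])) →
    Comparable (image H (u ++ [b])) (image G (u ++ [b])) →
    image H u = image G u

theorem result : ¬ ∃ P : List (List ℕ) × List (List ℕ) → Prop, ComputablePred P ∧
    ∀ H G : List (List ℕ), H.length = G.length → 2 ≤ H.length →
      (P (H, G) ↔ UniqueEqCont H G) := by
  rintro ⟨P, hP, h⟩
  obtain ⟨Halts, _, _, U, V, h0, _, _, pU, pV, hn⟩ := LeadPcp.main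
  apply h0
  obtain ⟨f, hf, hf'⟩ := ComputablePred.computable_iff.mp hP.not
  refine ComputablePred.computable_iff.mpr ⟨fun n => f (U n, V n),
    hf.comp (pU.pair pV).to_comp, ?_⟩
  funext n
  obtain ⟨_, _, _, _, _, a1, a2, a3⟩ := hn n
  have e := congrFun hf' (U n, V n)
  have e2 : P (U n, V n) ↔ ¬ Halts n := (h (U n) (V n) a1 a2).trans a3
  rw [← e, e2, not_not]

end Pool.Agent.Results.MP_c472bb_lc.Undecidable
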